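import Mathlib
import Pool.Agent.Helper35.YG.Main

set_option autoImplicit false

namespace Pool.Agent.Results.MP_e0c532_al.TwoPower

/-- `Y(m, 2^k)` is finite for all `m` and `k`. -/
theorem result (m k : ℕ) :
    Finite (PresentedGroup
      {r : FreeGroup (Fin m) |
        (∃ j : Fin m, r = FreeGroup.of j ^ (2 ^ k)) ∨
        ∃ j l : Fin m, ∃ i : ℕ, j < l ∧ 1 ≤ i ∧ 2 * i ≤ 2 ^ k ∧
          r = (FreeGroup.of j ^ i * FreeGroup.of l ^ i) ^ 2}) :=
  Pool.Agent.Helper35.YG.Y_two_pow_finite m k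

end Pool.Agent.Results.MP_e0c532_al.TwoPower
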